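import Mathlib
import Pool.Agent.Run7.h187.HyDefs
import Pool.Agent.Run7.h187.HyMain

set_option autoImplicit false

/-!
The best constant `C(α, n)` in the weighted Hardy inequality
`∫ (1+|x|²)^α |∇u|² ≥ C ∫ (1+|x|²)^(α-1) u²` on `ℝⁿ`, for all `n ≥ 3` and all
`α ≠ -(n-2)/2`.
-/

namespace Pool.Agent.Results.MP_5b99fd_an.BestConstant

open Run7.h187.Hy

/-- For every `n ≥ 3` and every `α ≠ -(n-2)/2` there are admissible functions, and `C(α, n)` is
`-2α` for `α < -n`, `-4α - 2n` for `-n ≤ α < -(n+2)/2`, `(n+2α-2)²/4` for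
`-(n+2)/2 ≤ α ≤ (n+2)/2` and `2n(α-1)` for `α > (n+2)/2`. -/
theorem result (n : ℕ) (hn : 3 ≤ n) (α : ℝ) (hα : α ≠ -((n : ℝ) - 2) / 2) :
    (admissible n α).Nonempty ∧
    bestConst n α = if α < -n then -2 * α
      else if α < -((n : ℝ) + 2) / 2 then -4 * α - 2 * n
      else if α ≤ ((n : ℝ) + 2) / 2 then ((n : ℝ) + 2 * α - 2) ^ 2 / 4
      else 2 * n * (α - 1) :=
  bestConst_eq n hn α hα

end Pool.Agent.Results.MP_5b99fd_an.BestConstant
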